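import Pool.Agent.H84.TI.Stm

set_option autoImplicit false

open Finset Filter

namespace Pool.Agent.H62.TI

open Pool.Agent.H84.TI

theorem equ (hEXP : S_EXP) : S_EQU := by
  intro ε hε
  obtain ⟨δ, hδ0, hδ6, hδε⟩ : ∃ δ : ℝ, 0 < δ ∧ δ ≤ 1 / 6 ∧ δ ≤ ε / 2 :=
    ⟨min (1 / 6) (ε / 2), lt_min (by norm_num) (by positivity), min_le_left _ _, min_le_right _ _⟩
  obtain ⟨P, hP⟩ := exists_nat_ge (max (16 / (δ * ε ^ 2)) (2 / δ))
  refine ⟨P, fun p hp hp2 B hB hBc z l hl => ?_⟩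
  have hpR : (2 : ℝ) ≤ p := by exact_mod_cast hp2
  have hPp : (P : ℝ) ≤ p := by exact_mod_cast hp
  have hpp : (0 : ℝ) < p := by linarith
  have h16 : 16 / (δ * ε ^ 2) ≤ (p : ℝ) := (le_max_left _ _).trans (hP.trans hPp)
  have h2 : 2 / δ ≤ (p : ℝ) := (le_max_right _ _).trans (hP.trans hPp)
  have h16' : 16 ≤ (p : ℝ) * (δ * ε ^ 2) := by
    rwa [div_le_iff₀ (by positivity)] at h16
  have h2' : 2 ≤ (p : ℝ) * δ := by rwa [div_le_iff₀ hδ0] at h2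
  have hMR : ((p * (p - 1) : ℕ) : ℝ) = (p : ℝ) * (p - 1) := by
    rw [Nat.cast_mul, Nat.cast_sub (by omega : 1 ≤ p), Nat.cast_one]
  have hMpos : 0 < p * (p - 1) := Nat.mul_pos (by omega) (by omega)
  haveI : NeZero (p * (p - 1)) := ⟨hMpos.ne'⟩
  obtain ⟨u, hu1, hu2⟩ : ∃ u : ℕ, (u : ℝ) ≤ δ * (p : ℝ) ^ 2 ∧ δ * (p : ℝ) ^ 2 - 1 < u :=
    ⟨⌊δ * (p : ℝ) ^ 2⌋₊, Nat.floor_le (by positivity), Nat.sub_one_lt_floor _⟩
  have hδp2 : 2 ≤ δ * (p : ℝ) ^ 2 := by nlinarith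
  have hu3 : δ * (p : ℝ) ^ 2 / 2 ≤ u := by linarith
  have hu0 : (0 : ℝ) < u := by linarith
  have h3u : 3 * u ≤ p * (p - 1) := by
    have : (3 : ℝ) * u ≤ ((p * (p - 1) : ℕ) : ℝ) := by
      rw [hMR]
      have : δ * (p : ℝ) ^ 2 ≤ 1 / 6 * (p : ℝ) ^ 2 := by gcongr
      nlinarith
    exact_mod_cast this
  have hlu : l + u ≤ p * (p - 1) := by omega
  have key := hEXP B hB z l u hlu
  have hBR : (B.card : ℝ) = (p : ℝ) - 1 := by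
    rw [hBc, Nat.cast_sub (by omega : 1 ≤ p), Nat.cast_one]
  have hluR : (l : ℝ) + u ≤ (p : ℝ) ^ 2 := by
    have : ((l + u : ℕ) : ℝ) ≤ ((p * (p - 1) : ℕ) : ℝ) := by exact_mod_cast hlu
    rw [hMR] at this
    push_cast at this
    nlinarith
  have hp1 : (0 : ℝ) < (p : ℝ) - 1 := by linarith
  rw [hBR, hMR] at key
  have e1 : ((p : ℝ) - 1) * u / (p * (p - 1)) = u / p := by
    field_simp
  have e2 : ((p : ℝ) - 1) ^ 2 * (u : ℝ) ^ 2 / (p * (p - 1)) = (u : ℝ) ^ 2 - (u : ℝ) ^ 2 / p := by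
    field_simp
  rw [e1, e2] at key
  have hup : (u : ℝ) ≤ (p : ℝ) ^ 2 := by
    have : δ * (p : ℝ) ^ 2 ≤ 1 * (p : ℝ) ^ 2 := by gcongr; linarith
    linarith
  have hin : ((l : ℝ) + u) * (((p : ℝ) - 1) * u + (u : ℝ) ^ 2 - ((u : ℝ) ^ 2 - (u : ℝ) ^ 2 / p)) ≤
      (ε / 2 * p * u) ^ 2 := by
    have a1 : ((p : ℝ) - 1) * u + (u : ℝ) ^ 2 - ((u : ℝ) ^ 2 - (u : ℝ) ^ 2 / p) ≤ 2 * p * u := by
      have : (u : ℝ) ^ 2 / p ≤ p * u := by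
        rw [div_le_iff₀ hpp]
        nlinarith
      nlinarith
    have a0 : 0 ≤ 2 * (p : ℝ) * u := by positivity
    have a2 : ((l : ℝ) + u) * (((p : ℝ) - 1) * u + (u : ℝ) ^ 2 - ((u : ℝ) ^ 2 - (u : ℝ) ^ 2 / p)) ≤
        (p : ℝ) ^ 2 * (2 * p * u) :=
      (mul_le_mul_of_nonneg_left a1 (by positivity)).trans (mul_le_mul_of_nonneg_right hluR a0)
    have a3 : 8 * (p : ℝ) ≤ ε ^ 2 * u := by
      have : 8 * (p : ℝ) ≤ ε ^ 2 * (δ * (p : ℝ) ^ 2 / 2) := by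
        have := mul_le_mul_of_nonneg_left h16' (by positivity : (0 : ℝ) ≤ p / 2)
        nlinarith
      exact this.trans (mul_le_mul_of_nonneg_left hu3 (by positivity))
    calc _ ≤ (p : ℝ) ^ 2 * (2 * p * u) := a2
      _ = (p : ℝ) ^ 2 * u / 4 * (8 * p) := by ring
      _ ≤ (p : ℝ) ^ 2 * u / 4 * (ε ^ 2 * u) := by gcongr
      _ = (ε / 2 * p * u) ^ 2 := by ring
  have hsq := Real.sqrt_le_sqrt hin
  rw [Real.sqrt_sq (by positivity)] at hsq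
  have k2 : (G B z l : ℝ) * u ≤ ((l : ℝ) / p + ε * p) * u := by
    have b1 : ((l : ℝ) + u) * (u / p) = (l : ℝ) / p * u + u / p * u := by ring
    have b2 : (u : ℝ) / p ≤ ε / 2 * p := by
      rw [div_le_iff₀ hpp]
      have : δ * (p : ℝ) ^ 2 ≤ ε / 2 * (p : ℝ) ^ 2 := by gcongr
      nlinarith
    have b3 : (u : ℝ) / p * u ≤ ε / 2 * p * u := by gcongr
    rw [b1] at key
    nlinarith
  exact le_of_mul_le_mul_right k2 hu0

end Pool.Agent.H62.TI
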